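import Mathlib

/-!
Probabilistic cellular automata on the lattice `ℤ^d` over a finite alphabet `S`:
configurations, shifts, cylinders, the transition kernel, ergodicity, spatial mixing.
-/

open MeasureTheory ProbabilityTheory Filter Topology

namespace Pool.Agent.P.MP_3c7ff8_pr

/-- The configuration space `S^(ℤ^d)`, with the product topology and product σ-algebra. -/
abbrev Config (d : ℕ) (S : Type) : Type := (Fin d → ℤ) → S

variable {d m : ℕ} {S : Type}

/-- The shift: `(σ^k x)_i = x_(i+k)`. -/
def shift (k : Fin d → ℤ) (x : Config d S) : Config d S := fun i => x (i + k)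

/-- The cylinder `[u]` of all configurations equal to `u` on the finite set `A`. -/
def cyl (A : Finset (Fin d → ℤ)) (u : A → S) : Set (Config d S) := {x | ∀ i : A, x i = u i}

variable [Fintype S] [MeasurableSpace S] [DiscreteMeasurableSpace S]

/-- `Φ(x, ·)`: the product measure under which the new symbols at the sites `i` are independent
with laws `φ(x_(i+n_1), …, x_(i+n_m))`. -/
noncomputable def transition (n : Fin m → Fin d → ℤ) (φ : (Fin m → S) → PMF S)
    (x : Config d S) : Measure (Config d S) :=
  Measure.infinitePi fun i => (φ fun j => x (i + n j)).toMeasure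

/-- `x ↦ Φ(x, ·)` is measurable, so that `Φ` is a transition kernel. -/
theorem measurable_transition (n : Fin m → Fin d → ℤ) (φ : (Fin m → S) → PMF S) :
    Measurable (transition n φ) := by
  have hp : ∀ x, IsProbabilityMeasure (transition n φ x) := fun x => by
    unfold transition; infer_instance
  refine Measurable.measure_of_isPiSystem_of_isProbabilityMeasure
    generateFrom_squareCylinders.symm
    (isPiSystem_squareCylinders (fun _ => MeasurableSpace.isPiSystem_measurableSet) (by simp)) ?_
  rintro _ ⟨s, t, ht, rfl⟩
  have h : ∀ x, transition n φ x (Set.pi s t)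
      = ∏ i ∈ s, (φ fun j => x (i + n j)).toMeasure (t i) := fun x =>
    Measure.infinitePi_pi _ fun i _ => MeasurableSet.of_discrete
  simp_rw [h]
  refine Finset.measurable_prod _ fun i _ => ?_
  exact (Measurable.of_discrete (f := fun a : Fin m → S => (φ a).toMeasure (t i))).comp
    (measurable_pi_lambda _ fun j => measurable_pi_apply _)

/-- The transition kernel `Φ` of the PCA with neighbourhood `n` and local rule `φ`. -/
noncomputable def pcaKernel (n : Fin m → Fin d → ℤ) (φ : (Fin m → S) → PMF S) :
    Kernel (Config d S) (Config d S) :=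
  ⟨transition n φ, measurable_transition n φ⟩

/-- `μΦ`, the measure `E ↦ ∫ Φ(x, E) μ(dx)`. -/
noncomputable def step (n : Fin m → Fin d → ℤ) (φ : (Fin m → S) → PMF S)
    (μ : Measure (Config d S)) : Measure (Config d S) :=
  μ.bind (pcaKernel n φ)

/-- `step` is given by the displayed integral formula. -/
theorem step_apply (n : Fin m → Fin d → ℤ) (φ : (Fin m → S) → PMF S)
    (μ : Measure (Config d S)) {E : Set (Config d S)} (hE : MeasurableSet E) :
    step n φ μ E = ∫⁻ x, transition n φ x E ∂μ :=
  Measure.bind_apply hE (pcaKernel n φ).aemeasurable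

/-- The PCA is ergodic with invariant measure `π`: `π` is the one and only invariant probability
measure, and `μΦ^t → π` weakly for every initial probability measure `μ`. -/
def IsErgodicWith [TopologicalSpace S] (n : Fin m → Fin d → ℤ) (φ : (Fin m → S) → PMF S)
    (π : Measure (Config d S)) : Prop :=
  IsProbabilityMeasure π ∧ step n φ π = π ∧
  (∀ ν : Measure (Config d S), IsProbabilityMeasure ν → step n φ ν = ν → ν = π) ∧
  ∀ μ : Measure (Config d S), IsProbabilityMeasure μ →
    ∀ f : BoundedContinuousFunction (Config d S) ℝ,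
      Tendsto (fun t : ℕ => ∫ x, f x ∂((step n φ)^[t] μ)) atTop (𝓝 (∫ x, f x ∂π))

/-- `π` is shift-invariant and `π([u] ∩ σ^(-k)[v]) → π([u]) π([v])` as `‖k‖_∞ → ∞`, for all
cylinders `[u]`, `[v]`. The norm on `Fin d → ℤ` is the sup norm. -/
def IsSpatiallyMixing (π : Measure (Config d S)) : Prop :=
  (∀ k : Fin d → ℤ, π.map (shift k) = π) ∧
  ∀ (A B : Finset (Fin d → ℤ)) (u : A → S) (v : B → S),
    Tendsto (fun k : Fin d → ℤ => π (cyl A u ∩ shift k ⁻¹' cyl B v))
      (comap (fun k : Fin d → ℤ => ‖k‖) atTop) (𝓝 (π (cyl A u) * π (cyl B v)))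

end Pool.Agent.P.MP_3c7ff8_pr
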