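import Pool.Agent.P.MP_3c7ff8_pr.Defs

open MeasureTheory ProbabilityTheory Filter Topology
open scoped ENNReal

namespace Pool.Agent.P.MP_3c7ff8_pr

variable {d m : ℕ} {S : Type}

theorem measurable_shift [MeasurableSpace S] (k : Fin d → ℤ) :
    Measurable (shift (S := S) k) :=
  measurable_pi_lambda _ fun _ => measurable_pi_apply _

/-- A function of finitely many coordinates factors through the restriction map. -/
theorem exists_comp_of_dependsOn {f : Config d S → ℝ≥0∞} {A : Finset (Fin d → ℤ)}
    (hf : DependsOn f (A : Set (Fin d → ℤ))) :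
    ∃ g : (A → S) → ℝ≥0∞, ∀ x, f x = g (A.restrict x) := by
  obtain ⟨g, hg⟩ := dependsOn_iff_exists_comp.1 hf
  exact ⟨g, fun x => congrFun hg x⟩

/-- One step of the backward light cone. -/
def grow (n : Fin m → Fin d → ℤ) (A : Finset (Fin d → ℤ)) : Finset (Fin d → ℤ) :=
  A.biUnion fun i => Finset.univ.image fun j => i + n j

theorem mem_grow (n : Fin m → Fin d → ℤ) {A : Finset (Fin d → ℤ)} {i : Fin d → ℤ} (hi : i ∈ A)
    (j : Fin m) : i + n j ∈ grow n A := by
  simp only [grow, Finset.mem_biUnion, Finset.mem_image, Finset.mem_univ, true_and]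
  exact ⟨i, hi, j, rfl⟩

theorem exists_near_of_mem_cone (n : Fin m → Fin d → ℤ) {R : ℝ} (hR : ∀ j, ‖n j‖ ≤ R)
    (A : Finset (Fin d → ℤ)) (t : ℕ) {i : Fin d → ℤ} (hi : i ∈ (grow n)^[t] A) :
    ∃ a ∈ A, ‖i - a‖ ≤ t * R := by
  induction t generalizing i with
  | zero => exact ⟨i, hi, by simp⟩
  | succ t ih =>
    rw [Function.iterate_succ_apply'] at hi
    simp only [grow, Finset.mem_biUnion, Finset.mem_image, Finset.mem_univ, true_and] at hi
    obtain ⟨i', hi', j, rfl⟩ := hi
    obtain ⟨a, ha, h⟩ := ih hi'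
    refine ⟨a, ha, ?_⟩
    have : i' + n j - a = (i' - a) + n j := by abel
    rw [this]
    have := norm_add_le (i' - a) (n j)
    have := hR j
    push_cast
    linarith

variable [Fintype S] [MeasurableSpace S] [DiscreteMeasurableSpace S]

theorem measurable_of_dependsOn {f : Config d S → ℝ≥0∞} {A : Finset (Fin d → ℤ)}
    (hf : DependsOn f (A : Set (Fin d → ℤ))) : Measurable f := by
  obtain ⟨g, hg⟩ := exists_comp_of_dependsOn hf
  have : f = g ∘ A.restrict := funext hg
  rw [this]
  exact Measurable.of_discrete.comp (Finset.measurable_restrict _)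

variable (n : Fin m → Fin d → ℤ) (φ : (Fin m → S) → PMF S)

theorem pcaKernel_apply (x : Config d S) :
    pcaKernel n φ x = Measure.infinitePi fun i => (φ fun j => x (i + n j)).toMeasure := rfl

instance : IsMarkovKernel (pcaKernel n φ) :=
  ⟨fun x => by rw [pcaKernel_apply]; infer_instance⟩

theorem isMarkov_pow (t : ℕ) : IsMarkovKernel (pcaKernel n φ ^ t) := by
  induction t with
  | zero => rw [pow_zero]; exact (inferInstance : IsMarkovKernel Kernel.id)
  | succ t ih =>
    rw [Kernel.pow_add, pow_one]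
    infer_instance

theorem lintegral_pow_succ (t : ℕ) (x : Config d S) {f : Config d S → ℝ≥0∞} (hf : Measurable f) :
    ∫⁻ y, f y ∂((pcaKernel n φ ^ (t + 1)) x)
      = ∫⁻ z, (∫⁻ y, f y ∂((pcaKernel n φ ^ t) z)) ∂(pcaKernel n φ x) := by
  rw [Kernel.pow_add, pow_one, Kernel.lintegral_comp _ _ _ hf]

theorem iterate_step (t : ℕ) (μ : Measure (Config d S)) :
    (step n φ)^[t] μ = μ.bind (pcaKernel n φ ^ t : Kernel _ _) := by
  induction t generalizing μ with
  | zero =>
    rw [pow_zero]
    exact (Measure.id_comp (μ := μ)).symm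
  | succ t ih =>
    rw [Function.iterate_succ_apply, ih, Kernel.pow_add, pow_one, step]
    exact Measure.comp_assoc

theorem dependsOn_step {f : Config d S → ℝ≥0∞} {A : Finset (Fin d → ℤ)}
    (hf : DependsOn f (A : Set (Fin d → ℤ))) :
    DependsOn (fun x => ∫⁻ y, f y ∂(pcaKernel n φ x)) (grow n A : Set (Fin d → ℤ)) := by
  obtain ⟨g, hg⟩ := exists_comp_of_dependsOn hf
  intro x x' hx
  simp_rw [hg, pcaKernel_apply]
  rw [lintegral_restrict_infinitePi _ Measurable.of_discrete,
    lintegral_restrict_infinitePi _ Measurable.of_discrete]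
  congr 2
  funext i
  congr 2
  funext j
  exact hx _ (mem_grow n i.2 j)

theorem dependsOn_pow {f : Config d S → ℝ≥0∞} {A : Finset (Fin d → ℤ)}
    (hf : DependsOn f (A : Set (Fin d → ℤ))) (t : ℕ) :
    DependsOn (fun x => ∫⁻ y, f y ∂((pcaKernel n φ ^ t) x))
      (((grow n)^[t] A : Finset (Fin d → ℤ)) : Set (Fin d → ℤ)) := by
  induction t with
  | zero =>
    intro x x' hx
    have hm := measurable_of_dependsOn hf
    simp only [pow_zero]
    change ∫⁻ y, f y ∂(Kernel.id x) = ∫⁻ y, f y ∂(Kernel.id x')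
    rw [Kernel.id_apply, Kernel.id_apply, lintegral_dirac' _ hm, lintegral_dirac' _ hm]
    exact hf hx
  | succ t ih =>
    simp_rw [lintegral_pow_succ n φ t _ (measurable_of_dependsOn hf)]
    rw [Function.iterate_succ_apply']
    exact dependsOn_step n φ ih

theorem lintegral_mul_step {f g : Config d S → ℝ≥0∞} {A B : Finset (Fin d → ℤ)}
    (hf : DependsOn f (A : Set (Fin d → ℤ))) (hg : DependsOn g (B : Set (Fin d → ℤ)))
    (hAB : Disjoint A B) (x : Config d S) :
    ∫⁻ y, f y * g y ∂(pcaKernel n φ x)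
      = (∫⁻ y, f y ∂(pcaKernel n φ x)) * ∫⁻ y, g y ∂(pcaKernel n φ x) := by
  refine lintegral_mul_eq_lintegral_mul_lintegral_of_indepFun''
    (measurable_of_dependsOn hf).aemeasurable (measurable_of_dependsOn hg).aemeasurable ?_
  obtain ⟨F, hF⟩ := exists_comp_of_dependsOn hf
  obtain ⟨G, hG⟩ := exists_comp_of_dependsOn hg
  have h1 : iIndepFun (fun (i : Fin d → ℤ) (ω : Config d S) => ω i) (pcaKernel n φ x) := by
    rw [pcaKernel_apply]
    exact iIndepFun_infinitePi (X := fun _ (s : S) => s) fun _ => measurable_id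
  have h2 := (h1.indepFun_finset A B hAB fun i => measurable_pi_apply i).comp
    (Measurable.of_discrete (f := F)) (Measurable.of_discrete (f := G))
  have e1 : f = F ∘ fun (a : Config d S) (i : A) => a i := funext hF
  have e2 : g = G ∘ fun (a : Config d S) (i : B) => a i := funext hG
  rw [e1, e2]
  exact h2

theorem lintegral_mul_pow {f g : Config d S → ℝ≥0∞} {A B : Finset (Fin d → ℤ)}
    (hf : DependsOn f (A : Set (Fin d → ℤ))) (hg : DependsOn g (B : Set (Fin d → ℤ))) (t : ℕ)
    (hAB : ∀ s < t, Disjoint ((grow n)^[s] A) ((grow n)^[s] B)) (x : Config d S) :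
    ∫⁻ y, f y * g y ∂((pcaKernel n φ ^ t) x)
      = (∫⁻ y, f y ∂((pcaKernel n φ ^ t) x)) * ∫⁻ y, g y ∂((pcaKernel n φ ^ t) x) := by
  have hfm := measurable_of_dependsOn hf
  have hgm := measurable_of_dependsOn hg
  have hfg : Measurable fun y => f y * g y := hfm.mul hgm
  induction t generalizing x with
  | zero =>
    simp only [pow_zero]
    change ∫⁻ y, f y * g y ∂(Kernel.id x) = (∫⁻ y, f y ∂(Kernel.id x)) * ∫⁻ y, g y ∂(Kernel.id x)
    rw [Kernel.id_apply, lintegral_dirac' _ hfm, lintegral_dirac' _ hgm,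
      lintegral_dirac' _ hfg]
  | succ t ih =>
    rw [lintegral_pow_succ n φ t _ hfm, lintegral_pow_succ n φ t _ hgm,
      lintegral_pow_succ n φ t _ hfg]
    simp_rw [ih fun s hs => hAB s (by omega)]
    exact lintegral_mul_step n φ (dependsOn_pow n φ hf t) (dependsOn_pow n φ hg t)
      (hAB t (by omega)) x

theorem pcaKernel_shift (k : Fin d → ℤ) (x : Config d S) :
    pcaKernel n φ (shift k x) = (pcaKernel n φ x).map (shift k) := by
  rw [pcaKernel_apply, pcaKernel_apply]
  have := Measure.map_infinitePi_infinitePi_of_inj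
    (P := fun i : Fin d → ℤ => (φ fun j => x (i + n j)).toMeasure)
    (f := fun i : Fin d → ℤ => i + k) (add_left_injective k)
  refine Eq.trans ?_ this.symm
  congr 1
  funext i
  congr 2
  funext j
  simp only [shift]
  rw [add_right_comm]

theorem lintegral_pow_shift (k : Fin d → ℤ) (t : ℕ) (x : Config d S) {f : Config d S → ℝ≥0∞}
    (hf : Measurable f) :
    ∫⁻ y, f (shift k y) ∂((pcaKernel n φ ^ t) x) = ∫⁻ y, f y ∂((pcaKernel n φ ^ t) (shift k x)) := by
  have hfs : Measurable fun y => f (shift k y) := hf.comp (measurable_shift k)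
  induction t generalizing x with
  | zero =>
    simp only [pow_zero]
    change ∫⁻ y, f (shift k y) ∂(Kernel.id x) = ∫⁻ y, f y ∂(Kernel.id (shift k x))
    rw [Kernel.id_apply, Kernel.id_apply, lintegral_dirac' _ hf, lintegral_dirac' _ hfs]
  | succ t ih =>
    rw [lintegral_pow_succ n φ t _ hfs, lintegral_pow_succ n φ t _ hf, pcaKernel_shift,
      lintegral_map (hf.lintegral_kernel) (measurable_shift k)]
    simp_rw [ih]

theorem step_map_shift (k : Fin d → ℤ) (μ : Measure (Config d S)) :
    step n φ (μ.map (shift k)) = (step n φ μ).map (shift k) := by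
  ext E hE
  rw [step_apply n φ _ hE, Measure.map_apply (measurable_shift k) hE,
    step_apply n φ _ (measurable_shift k hE), lintegral_map _ (measurable_shift k)]
  · refine lintegral_congr fun x => ?_
    change pcaKernel n φ (shift k x) E = pcaKernel n φ x _
    rw [pcaKernel_shift, Measure.map_apply (measurable_shift k) hE]
  · exact (pcaKernel n φ).measurable_coe hE

omit [Fintype S] [MeasurableSpace S] [DiscreteMeasurableSpace S] in
theorem dependsOn_indicator_cyl (A : Finset (Fin d → ℤ)) (u : A → S) :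
    DependsOn ((cyl A u).indicator (1 : Config d S → ℝ≥0∞)) (A : Set (Fin d → ℤ)) := by
  intro x y h
  have : x ∈ cyl A u ↔ y ∈ cyl A u := by
    simp only [cyl, Set.mem_ofPred_eq]
    exact forall_congr' fun i => by rw [h i i.2]
  by_cases hx : x ∈ cyl A u
  · rw [Set.indicator_of_mem hx, Set.indicator_of_mem (this.1 hx)]; rfl
  · rw [Set.indicator_of_notMem hx, Set.indicator_of_notMem (fun h => hx (this.2 h))]

omit [Fintype S] in
theorem measurableSet_cyl (A : Finset (Fin d → ℤ)) (u : A → S) : MeasurableSet (cyl A u) := by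
  have : cyl A u = ⋂ i : A, (fun x : Config d S => x i) ⁻¹' {u i} := by
    ext x; simp [cyl]
  rw [this]
  exact MeasurableSet.iInter fun i => measurable_pi_apply _ MeasurableSet.of_discrete

omit [Fintype S] [MeasurableSpace S] [DiscreteMeasurableSpace S] in
theorem isClopen_cyl [TopologicalSpace S] [DiscreteTopology S] (A : Finset (Fin d → ℤ))
    (u : A → S) : IsClopen (cyl A u) := by
  have : cyl A u = ⋂ i : A, (fun x : Config d S => x i) ⁻¹' {u i} := by
    ext x; simp [cyl]
  rw [this]
  exact isClopen_iInter_of_finite fun i => (isClopen_discrete _).preimage (continuous_apply _)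

/-- Far apart cylinders are independent under `Φ^t(x, ·)`. -/
theorem pow_inter_shift {R : ℝ} (hR : ∀ j, ‖n j‖ ≤ R) (hR0 : 0 ≤ R)
    (A B : Finset (Fin d → ℤ)) (u : A → S) (v : B → S) {D : ℝ}
    (hD : ∀ a ∈ A, ∀ b ∈ B, ‖a - b‖ ≤ D) (t : ℕ) (k : Fin d → ℤ) (hk : D + 2 * t * R < ‖k‖)
    (x : Config d S) :
    (pcaKernel n φ ^ t) x (cyl A u ∩ shift k ⁻¹' cyl B v)
      = (pcaKernel n φ ^ t) x (cyl A u) * (pcaKernel n φ ^ t) (shift k x) (cyl B v) := by
  have hE := measurableSet_cyl A u
  have hF := measurableSet_cyl B v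
  have hf := dependsOn_indicator_cyl A u
  have hg : DependsOn (fun y => (cyl B v).indicator (1 : Config d S → ℝ≥0∞) (shift k y))
      ((B.image fun b => b + k : Finset (Fin d → ℤ)) : Set (Fin d → ℤ)) := by
    intro x y h
    refine dependsOn_indicator_cyl B v fun i hi => h (i + k) ?_
    simp only [Finset.coe_image, Set.mem_image]
    exact ⟨i, hi, rfl⟩
  have hdis : ∀ s < t, Disjoint ((grow n)^[s] A) ((grow n)^[s] (B.image fun b => b + k)) := by
    intro s hs
    rw [Finset.disjoint_left]
    intro i h1 h2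
    obtain ⟨a, ha, h1⟩ := exists_near_of_mem_cone n hR _ s h1
    obtain ⟨b', hb', h2⟩ := exists_near_of_mem_cone n hR _ s h2
    obtain ⟨b, hb, rfl⟩ := Finset.mem_image.1 hb'
    have e : k = (i - a) - (i - (b + k)) + (a - b) := by abel
    have h3 : ‖k‖ ≤ ‖i - a‖ + ‖i - (b + k)‖ + ‖a - b‖ := by
      calc ‖k‖ = ‖(i - a) - (i - (b + k)) + (a - b)‖ := by rw [← e]
        _ ≤ ‖(i - a) - (i - (b + k))‖ + ‖a - b‖ := norm_add_le _ _
        _ ≤ _ := by gcongr; exact norm_sub_le _ _
    have h4 := hD a ha b hb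
    have h5 : (s : ℝ) * R ≤ t * R := by gcongr
    linarith
  have key := lintegral_mul_pow n φ hf hg t hdis x
  rw [lintegral_pow_shift n φ k t x (measurable_one.indicator hF), lintegral_indicator_one hE,
    lintegral_indicator_one hF] at key
  rw [← key, ← lintegral_indicator_one (hE.inter (measurable_shift k hF))]
  refine lintegral_congr fun y => ?_
  by_cases h1 : y ∈ cyl A u <;> by_cases h2 : shift k y ∈ cyl B v <;>
    simp [Set.indicator, h1, h2]

theorem bind_pow_of_invariant {π : Measure (Config d S)} (hπ : step n φ π = π) (t : ℕ) :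
    π.bind (pcaKernel n φ ^ t : Kernel _ _) = π := by
  rw [← iterate_step]
  exact Function.iterate_fixed hπ t

variable [TopologicalSpace S] [DiscreteTopology S]

theorem tendsto_pow_cyl {π : Measure (Config d S)} (h : IsErgodicWith n φ π)
    (A : Finset (Fin d → ℤ)) (u : A → S) (x : Config d S) :
    Tendsto (fun t : ℕ => ((pcaKernel n φ ^ t) x).real (cyl A u)) atTop (𝓝 (π.real (cyl A u))) := by
  have hE := measurableSet_cyl A u
  have := h.2.2.2 (Measure.dirac x) inferInstance
    (BoundedContinuousFunction.indicator (cyl A u) (isClopen_cyl A u))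
  have e : ∀ μ : Measure (Config d S),
      ∫ y, BoundedContinuousFunction.indicator (cyl A u) (isClopen_cyl A u) y ∂μ
        = μ.real (cyl A u) := fun μ => by
    rw [← integral_indicator_one hE]; rfl
  simp_rw [e, iterate_step, Measure.dirac_bind (Kernel.measurable _)] at this
  exact this

theorem tendsto_integral_abs {π : Measure (Config d S)} (h : IsErgodicWith n φ π)
    (A : Finset (Fin d → ℤ)) (u : A → S) :
    Tendsto (fun t : ℕ => ∫ x, |((pcaKernel n φ ^ t) x).real (cyl A u) - π.real (cyl A u)| ∂π)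
      atTop (𝓝 0) := by
  have hπ := h.1
  have hE := measurableSet_cyl A u
  have := tendsto_integral_of_dominated_convergence (μ := π)
    (F := fun (t : ℕ) x => |((pcaKernel n φ ^ t) x).real (cyl A u) - π.real (cyl A u)|)
    (f := fun _ => (0 : ℝ)) (fun _ => 1) ?_ (integrable_const _) ?_ ?_
  · simpa using this
  · intro t
    refine Measurable.aestronglyMeasurable ?_
    exact (((pcaKernel n φ ^ t).measurable_coe hE).ennreal_toReal.sub_const _).abs
  · intro t
    refine ae_of_all _ fun x => ?_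
    have := isMarkov_pow n φ t
    have h1 : ((pcaKernel n φ ^ t) x).real (cyl A u) ≤ 1 := measureReal_le_one
    have h2 : π.real (cyl A u) ≤ 1 := measureReal_le_one
    have h3 : 0 ≤ ((pcaKernel n φ ^ t) x).real (cyl A u) := measureReal_nonneg
    have h4 : 0 ≤ π.real (cyl A u) := measureReal_nonneg
    rw [Real.norm_eq_abs, abs_abs, abs_le]
    constructor <;> linarith
  · refine ae_of_all _ fun x => ?_
    have := ((tendsto_pow_cyl n φ h A u x).sub_const (π.real (cyl A u))).abs
    simpa using this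

omit [DiscreteTopology S] in
theorem map_shift_of_ergodic {π : Measure (Config d S)} (h : IsErgodicWith n φ π)
    (k : Fin d → ℤ) : π.map (shift k) = π := by
  have hπ := h.1
  refine h.2.2.1 _ (Measure.isProbabilityMeasure_map (measurable_shift k).aemeasurable) ?_
  rw [step_map_shift, h.2.1]

theorem abs_sub_le_of_far {π : Measure (Config d S)} (h : IsErgodicWith n φ π)
    {R : ℝ} (hR : ∀ j, ‖n j‖ ≤ R) (hR0 : 0 ≤ R)
    (A B : Finset (Fin d → ℤ)) (u : A → S) (v : B → S) {D : ℝ}
    (hD : ∀ a ∈ A, ∀ b ∈ B, ‖a - b‖ ≤ D) (t : ℕ) (k : Fin d → ℤ) (hk : D + 2 * t * R < ‖k‖) :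
    |π.real (cyl A u ∩ shift k ⁻¹' cyl B v) - π.real (cyl A u) * π.real (cyl B v)|
      ≤ (∫ x, |((pcaKernel n φ ^ t) x).real (cyl A u) - π.real (cyl A u)| ∂π)
        + ∫ x, |((pcaKernel n φ ^ t) x).real (cyl B v) - π.real (cyl B v)| ∂π := by
  have hπ := h.1
  have hM := isMarkov_pow n φ t
  have hE := measurableSet_cyl A u
  have hF := measurableSet_cyl B v
  have hEF := hE.inter (measurable_shift k hF)
  set κ := pcaKernel n φ ^ t with hκ
  set a : Config d S → ℝ := fun x => (κ x).real (cyl A u) with ha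
  set b : Config d S → ℝ := fun x => (κ x).real (cyl B v) with hb
  set α := π.real (cyl A u)
  set β := π.real (cyl B v)
  have ham : Measurable a := (κ.measurable_coe hE).ennreal_toReal
  have hbm : Measurable b := (κ.measurable_coe hF).ennreal_toReal
  have hbs : Measurable fun x => b (shift k x) := hbm.comp (measurable_shift k)
  have ha0 : ∀ x, 0 ≤ a x := fun x => measureReal_nonneg
  have ha1 : ∀ x, a x ≤ 1 := fun x => measureReal_le_one
  have hb0 : ∀ x, 0 ≤ b x := fun x => measureReal_nonneg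
  have hb1 : ∀ x, b x ≤ 1 := fun x => measureReal_le_one
  have hα0 : 0 ≤ α := measureReal_nonneg
  have hα1 : α ≤ 1 := measureReal_le_one
  have hβ0 : 0 ≤ β := measureReal_nonneg
  have hβ1 : β ≤ 1 := measureReal_le_one
  have hint : ∀ g : Config d S → ℝ, Measurable g → (∀ x, |g x| ≤ 1) → Integrable g π :=
    fun g hg hb => Integrable.of_bound hg.aestronglyMeasurable 1 (ae_of_all _ hb)
  have h1 : π.real (cyl A u ∩ shift k ⁻¹' cyl B v) = ∫ x, a x * b (shift k x) ∂π := by
    have e : π (cyl A u ∩ shift k ⁻¹' cyl B v)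
        = ∫⁻ x, κ x (cyl A u ∩ shift k ⁻¹' cyl B v) ∂π := by
      conv_lhs => rw [← bind_pow_of_invariant n φ h.2.1 t]
      exact Measure.bind_apply hEF κ.aemeasurable
    rw [Measure.real, e, ← integral_toReal (κ.measurable_coe hEF).aemeasurable
      (ae_of_all _ fun x => measure_lt_top _ _)]
    refine integral_congr_ae (ae_of_all _ fun x => ?_)
    simp only [ha, hb, hκ, Measure.real]
    rw [pow_inter_shift n φ hR hR0 A B u v hD t k hk x, ENNReal.toReal_mul]
  have h2 : ∫ x, |b x - β| ∂π = ∫ x, |b (shift k x) - β| ∂π := by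
    conv_lhs => rw [← map_shift_of_ergodic n φ h k]
    rw [integral_map (measurable_shift k).aemeasurable
      (hbm.sub_const β).abs.aestronglyMeasurable]
  have i1 : Integrable (fun x => a x * b (shift k x)) π := hint _ (ham.mul hbs) fun x => by
    rw [abs_of_nonneg (mul_nonneg (ha0 _) (hb0 _))]
    exact mul_le_one₀ (ha1 _) (hb0 _) (hb1 _)
  have i2 : Integrable (fun x => |a x - α|) π := hint _ (ham.sub_const α).abs fun x => by
    have := ha0 x; have := ha1 x
    rw [abs_abs, abs_le]; constructor <;> linarith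
  have i3 : Integrable (fun x => |b (shift k x) - β|) π := hint _ (hbs.sub_const β).abs fun x => by
    have := hb0 (shift k x); have := hb1 (shift k x)
    rw [abs_abs, abs_le]; constructor <;> linarith
  have h3 : (∫ x, a x * b (shift k x) ∂π) - α * β = ∫ x, (a x * b (shift k x) - α * β) ∂π := by
    rw [integral_sub i1 (integrable_const _)]; simp
  rw [h1, h3]
  change _ ≤ (∫ x, |a x - α| ∂π) + ∫ x, |b x - β| ∂π
  rw [h2, ← integral_add i2 i3]
  refine (abs_integral_le_integral_abs).trans ?_
  refine integral_mono (i1.sub (integrable_const _)).abs (i2.add i3) fun x => ?_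
  have e : a x * b (shift k x) - α * β
      = (a x - α) * b (shift k x) + α * (b (shift k x) - β) := by ring
  simp only []
  rw [e]
  refine (abs_add_le _ _).trans (add_le_add ?_ ?_)
  · rw [abs_mul, abs_of_nonneg (hb0 _)]
    exact mul_le_of_le_one_right (abs_nonneg _) (hb1 _)
  · rw [abs_mul, abs_of_nonneg hα0]
    exact mul_le_of_le_one_left (abs_nonneg _) hα1

theorem isSpatiallyMixing_of_ergodic {π : Measure (Config d S)} (h : IsErgodicWith n φ π) :
    IsSpatiallyMixing π := by
  have hπ := h.1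
  refine ⟨map_shift_of_ergodic n φ h, fun A B u v => ?_⟩
  set R : ℝ := ∑ j, ‖n j‖ with hRdef
  have hR : ∀ j, ‖n j‖ ≤ R := fun j =>
    Finset.single_le_sum (f := fun j => ‖n j‖) (fun _ _ => norm_nonneg _) (Finset.mem_univ j)
  have hR0 : 0 ≤ R := Finset.sum_nonneg fun _ _ => norm_nonneg _
  set D : ℝ := ∑ a ∈ A, ‖a‖ + ∑ b ∈ B, ‖b‖ with hDdef
  have hD : ∀ a ∈ A, ∀ b ∈ B, ‖a - b‖ ≤ D := fun a ha b hb =>
    (norm_sub_le a b).trans (add_le_add
      (Finset.single_le_sum (f := fun a => ‖a‖) (fun _ _ => norm_nonneg _) ha)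
      (Finset.single_le_sum (f := fun a => ‖a‖) (fun _ _ => norm_nonneg _) hb))
  rw [← ENNReal.tendsto_toReal_iff (fun k => measure_ne_top _ _)
    (ENNReal.mul_ne_top (measure_ne_top _ _) (measure_ne_top _ _)), ENNReal.toReal_mul]
  rw [Metric.tendsto_nhds]
  intro ε hε
  have hlim := (tendsto_integral_abs n φ h A u).add (tendsto_integral_abs n φ h B v)
  rw [add_zero] at hlim
  obtain ⟨t, ht⟩ := (hlim.eventually (gt_mem_nhds hε)).exists
  have hev : ∀ᶠ k : Fin d → ℤ in comap (fun k : Fin d → ℤ => ‖k‖) atTop, D + 2 * t * R < ‖k‖ :=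
    (tendsto_comap (f := fun k : Fin d → ℤ => ‖k‖)).eventually (eventually_gt_atTop _)
  filter_upwards [hev] with k hk
  rw [Real.dist_eq]
  exact (abs_sub_le_of_far n φ h hR hR0 A B u v hD t k hk).trans_lt ht

end Pool.Agent.P.MP_3c7ff8_pr
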